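import Pool.Agent.Run7.h717.SA.Iface
import Pool.Agent.H988R2.Gauss

/-!
# Project SA, piece LI (helper579): Gaussian vectors are linearly independent
-/

set_option autoImplicit false

namespace Run7.h579.SA.LI

open MeasureTheory ProbabilityTheory Filter Topology Set
open scoped ENNReal
open Pool.Agent.Run7.h717.SA

theorem t_LI : S_LI := by
  intro n d
  induction n with
  | zero =>
    intro _
    exact Eventually.of_forall fun x => linearIndependent_empty_type
  | succ n ih =>
    intro hn
    have ih' := ih (by omega)
    have hpr : IsProbabilityMeasure (GG n d) := by unfold GG; infer_instance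
    have hmp := (measurePreserving_piFinSuccAbove (fun _ : Fin (n + 1) => stdGaussian (E d)) 0).symm
    have key : ∀ᵐ p ∂((stdGaussian (E d)).prod (GG n d)),
        LinearIndependent ℝ (Fin.cons p.1 p.2 : Fin (n + 1) → E d) := by
      have hopen : MeasurableSet {p : E d × (Fin n → E d) |
          LinearIndependent ℝ (Fin.cons p.1 p.2 : Fin (n + 1) → E d)} := by
        have hc : Continuous (fun p : E d × (Fin n → E d) =>
            (Fin.cons p.1 p.2 : Fin (n + 1) → E d)) := by
          refine continuous_pi fun i => ?_
          refine Fin.cases ?_ (fun j => ?_) i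
          · simpa using continuous_fst
          · have c : Continuous fun p : E d × (Fin n → E d) => p.2 j :=
              (continuous_apply j).comp continuous_snd
            simpa using c
        exact (isOpen_setOfPred_linearIndependent.preimage hc).measurableSet
      have hswap : ∀ᵐ q ∂((GG n d).prod (stdGaussian (E d))),
          LinearIndependent ℝ (Fin.cons q.2 q.1 : Fin (n + 1) → E d) := by
        have hm2 : MeasurableSet {q : (Fin n → E d) × E d |
            LinearIndependent ℝ (Fin.cons q.2 q.1 : Fin (n + 1) → E d)} :=
          measurable_swap hopen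
        rw [Measure.ae_prod_iff_ae_ae (p := fun q : (Fin n → E d) × E d =>
          LinearIndependent ℝ (Fin.cons q.2 q.1 : Fin (n + 1) → E d)) hm2]
        filter_upwards [ih'] with x hx
        have hspan : (Submodule.span ℝ (Set.range x)) ≠ ⊤ := by
          intro htop
          have h1 := finrank_span_eq_card hx
          rw [htop, finrank_top, finrank_euclideanSpace, Fintype.card_fin, Fintype.card_fin] at h1
          omega
        have h0 : (stdGaussian (E d)) (Submodule.span ℝ (Set.range x) : Set (E d)) = 0 :=
          Pool.Agent.H988R2.stdGaussian_ac (Fin d)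
            (Measure.addHaar_submodule _ _ hspan)
        have h2 : ∀ᵐ y ∂(stdGaussian (E d)), y ∉ (Submodule.span ℝ (Set.range x) : Set (E d)) :=
          measure_eq_zero_iff_ae_notMem.1 h0
        filter_upwards [h2] with y hy
        exact linearIndependent_finCons.2 ⟨hx, hy⟩
      have := (Measure.measurePreserving_swap (μ := stdGaussian (E d)) (ν := GG n d)).quasiMeasurePreserving.ae hswap
      exact this
    have h3 := hmp.quasiMeasurePreserving
    have hmp2 := measurePreserving_piFinSuccAbove (fun _ : Fin (n + 1) => stdGaussian (E d)) 0
    have h4 := hmp2.quasiMeasurePreserving.ae key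
    refine h4.mono fun x hx => ?_
    have e : (Fin.cons ((MeasurableEquiv.piFinSuccAbove (fun _ : Fin (n + 1) => E d) 0) x).1
        ((MeasurableEquiv.piFinSuccAbove (fun _ : Fin (n + 1) => E d) 0) x).2 :
          Fin (n + 1) → E d) = x := by
      funext i
      refine Fin.cases ?_ (fun j => ?_) i
      · simp [MeasurableEquiv.piFinSuccAbove]
      · simp [MeasurableEquiv.piFinSuccAbove]
        rfl
    rw [e] at hx
    exact hx

end Run7.h579.SA.LI
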