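import Pool.Agent.Run7.h579.SA.POW

/-!
# Project SA, piece MSR (helper579): the angle is measurable
-/

set_option autoImplicit false

namespace Run7.h579.SA.MSR

open Pool.Agent.Run7.h717.SA

theorem t_MSR : S_MSR := fun d => ⟨fun x => ang x, Run7.h579.SA.POW.measAng d d, fun _ _ => rfl⟩

end Run7.h579.SA.MSR
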