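import Pool.Agent.Run7.h717.SA.Iface

/-!
# Project SA, piece POW (helper579): powers of the angle
-/

set_option autoImplicit false

namespace Run7.h579.SA.POW

open MeasureTheory ProbabilityTheory Filter Topology Set
open scoped ENNReal
open Pool.Agent.Run7.h717.SA

theorem measPos (n d : ℕ) : MeasurableSet {p : (Fin n → E d) × E d | p.2 ∈ pos p.1} := by
  have h1 : {p : (Fin n → E d) × E d | p.2 ∈ pos p.1} =
      ⋃ N : ℕ, Prod.fst '' {q : ((Fin n → E d) × E d) × (Icc (0 : Fin n → ℝ) (fun _ => (N:ℝ))) |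
        q.1.2 = ∑ i, (q.2 : Fin n → ℝ) i • q.1.1 i} := by
    ext p
    simp only [pos, mem_ofPred_eq, mem_iUnion, mem_image, Prod.exists, Subtype.exists]
    constructor
    · rintro ⟨c, hc, hp⟩
      obtain ⟨N, hN⟩ := exists_nat_ge (∑ i, c i)
      refine ⟨N, p.1, p.2, c, ⟨fun i => hc i, fun i => ?_⟩, hp, rfl⟩
      exact (Finset.single_le_sum (fun i _ => hc i) (Finset.mem_univ i)).trans hN
    · rintro ⟨N, x, y, c, hc, hp, rfl⟩
      exact ⟨c, fun i => hc.1 i, hp⟩
  rw [h1]
  refine MeasurableSet.iUnion fun N => ?_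
  have hcl : IsClosed {q : ((Fin n → E d) × E d) × (Icc (0 : Fin n → ℝ) (fun _ => (N:ℝ))) |
        q.1.2 = ∑ i, (q.2 : Fin n → ℝ) i • q.1.1 i} := by
    apply isClosed_eq
    · fun_prop
    · refine continuous_finsetSum _ fun i _ => ?_
      have c1 : Continuous fun q : ((Fin n → E d) × E d) × (Icc (0 : Fin n → ℝ) (fun _ => (N:ℝ))) =>
          (q.2 : Fin n → ℝ) i := (continuous_apply i).comp (continuous_subtype_val.comp continuous_snd)
      have c2 : Continuous fun q : ((Fin n → E d) × E d) × (Icc (0 : Fin n → ℝ) (fun _ => (N:ℝ))) =>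
          q.1.1 i := (continuous_apply i).comp (continuous_fst.comp continuous_fst)
      exact c1.smul c2
  exact (isClosedMap_fst_of_compactSpace _ hcl).measurableSet

theorem measAng (n d : ℕ) : Measurable (fun x : Fin n → E d => ang x) := by
  unfold ang
  have h := measurable_measure_prodMk_left (ν := stdGaussian (E d)) (measPos n d)
  exact h.ennreal_toReal

theorem t_POW : S_POW := by
  intro d k
  have hA : MeasurableSet {p : (Fin d → E d) × (Fin k → E d) | ∀ j, p.2 j ∈ pos p.1} := by
    have h1 : {p : (Fin d → E d) × (Fin k → E d) | ∀ j, p.2 j ∈ pos p.1} =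
        ⋂ j, (fun p : (Fin d → E d) × (Fin k → E d) => (p.1, p.2 j)) ⁻¹'
          {p : (Fin d → E d) × E d | p.2 ∈ pos p.1} := by
      ext p
      simp
    rw [h1]
    refine MeasurableSet.iInter fun j => ?_
    have hf : Measurable (fun p : (Fin d → E d) × (Fin k → E d) => (p.1, p.2 j)) := by fun_prop
    exact hf (measPos d d)
  have hpr : IsProbabilityMeasure (GG k d) := by unfold GG; infer_instance
  have hpr2 : IsProbabilityMeasure (GG d d) := by unfold GG; infer_instance
  have h2 : ∀ x : Fin d → E d, (GG k d) (Prod.mk x ⁻¹'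
      {p : (Fin d → E d) × (Fin k → E d) | ∀ j, p.2 j ∈ pos p.1}) =
      ENNReal.ofReal (ang x ^ k) := by
    intro x
    have e1 : Prod.mk x ⁻¹' {p : (Fin d → E d) × (Fin k → E d) | ∀ j, p.2 j ∈ pos p.1} =
        Set.pi Set.univ (fun _ : Fin k => pos x) := by
      ext y
      simp
    rw [e1, GG, Measure.pi_pi, Finset.prod_const, Finset.card_univ, Fintype.card_fin, ang,
      ENNReal.ofReal_pow measureReal_nonneg, Measure.real,
      ENNReal.ofReal_toReal (measure_ne_top _ _)]
  rw [mm, Measure.real, Measure.prod_apply hA]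
  simp_rw [h2]
  rw [← ofReal_integral_eq_lintegral_ofReal]
  · rw [ENNReal.toReal_ofReal]
    exact integral_nonneg fun x => pow_nonneg measureReal_nonneg k
  · refine Integrable.of_bound ((measAng d d).pow_const k).aestronglyMeasurable 1 ?_
    refine Eventually.of_forall fun x => ?_
    have a0 : 0 ≤ ang x := measureReal_nonneg
    have a1 : ang x ≤ 1 := measureReal_le_one
    rw [Real.norm_eq_abs, abs_of_nonneg (pow_nonneg a0 k)]
    exact pow_le_one₀ a0 a1
  · exact Eventually.of_forall fun x => pow_nonneg measureReal_nonneg k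

end Run7.h579.SA.POW
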