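import Pool.Agent.Run7.h717.SA.Iface
import Pool.Agent.H988R2.Gauss

/-!
# Project SA, piece UNI (helper579): the direction of a Gaussian vector is uniform
-/

set_option autoImplicit false

namespace Run7.h579.SA

open MeasureTheory ProbabilityTheory Filter Topology Metric Set
open scoped ENNReal
open Pool.Agent.Run7.h717.SA

/-- the radial density -/
noncomputable def kk (d : ℕ) (r : ℝ) : ℝ≥0∞ :=
  ENNReal.ofReal (((Real.sqrt (2 * Real.pi))⁻¹) ^ (Fintype.card (Fin d)) * Real.exp (-r ^ 2 / 2))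

theorem meas_kk (d : ℕ) : Measurable (kk d) := by
  unfold kk
  fun_prop

theorem polar (d : ℕ) (hd : 1 ≤ d) (A : Set (E d)) (hA : MeasurableSet A) :
    ((stdGaussian (E d)).map (fun y => ‖y‖⁻¹ • y)) A =
      (volume : Measure (E d)).toSphere (Subtype.val ⁻¹' A) *
        ∫⁻ r, kk d r.1 ∂(Measure.volumeIoiPow (Module.finrank ℝ (E d) - 1)) := by
  have hnt : Nontrivial (E d) := by
    have : Nonempty (Fin d) := ⟨⟨0, hd⟩⟩
    infer_instance
  have hN : Measurable (fun y : E d => ‖y‖⁻¹ • y) := by fun_prop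
  rw [Measure.map_apply hN hA, Pool.Agent.H988R2.stdGaussian_eq, withDensity_apply _ (hN hA),
    ← lintegral_indicator (hN hA)]
  set F : E d → ℝ≥0∞ := ((fun y : E d => ‖y‖⁻¹ • y) ⁻¹' A).indicator
    (fun x => ENNReal.ofReal (Pool.Agent.H988R2.gdens (Fin d) x)) with hF
  set G : sphere (0 : E d) 1 × Ioi (0 : ℝ) → ℝ≥0∞ := fun p =>
    (Subtype.val ⁻¹' A : Set (sphere (0 : E d) 1)).indicator 1 p.1 * kk d p.2.1 with hG
  have h1 : ∫⁻ y, F y ∂(volume : Measure (E d)) = ∫⁻ y in ({0}ᶜ : Set (E d)), F y := by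
    rw [MeasureTheory.restrict_compl_singleton]
  have h2 : ∫⁻ y in ({0}ᶜ : Set (E d)), F y =
      ∫⁻ y : ({0}ᶜ : Set (E d)), F y ∂((volume : Measure (E d)).comap (↑)) :=
    (lintegral_subtype_comap (measurableSet_singleton (0 : E d)).compl F).symm
  have hmp := (volume : Measure (E d)).measurePreserving_homeomorphUnitSphereProd
  have h3 : ∀ y : ({0}ᶜ : Set (E d)), F y = G (homeomorphUnitSphereProd (E d) y) := by
    intro y
    have e1 : ((homeomorphUnitSphereProd (E d) y).1 : E d) = ‖(y : E d)‖⁻¹ • (y : E d) := by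
      simp
    have e2 : ((homeomorphUnitSphereProd (E d) y).2 : ℝ) = ‖(y : E d)‖ := by
      simp
    have e3 : ENNReal.ofReal (Pool.Agent.H988R2.gdens (Fin d) (y : E d)) =
        kk d ((homeomorphUnitSphereProd (E d) y).2 : ℝ) := by
      rw [e2]; rfl
    by_cases hy : ‖(y : E d)‖⁻¹ • (y : E d) ∈ A
    · have m1 : (y : E d) ∈ (fun y : E d => ‖y‖⁻¹ • y) ⁻¹' A := hy
      have m2 : (homeomorphUnitSphereProd (E d) y).1 ∈
          (Subtype.val ⁻¹' A : Set (sphere (0 : E d) 1)) := by
        rw [mem_preimage, e1]; exact hy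
      show ((fun y : E d => ‖y‖⁻¹ • y) ⁻¹' A).indicator
        (fun x => ENNReal.ofReal (Pool.Agent.H988R2.gdens (Fin d) x)) (y : E d) =
        (Subtype.val ⁻¹' A : Set (sphere (0 : E d) 1)).indicator 1
          (homeomorphUnitSphereProd (E d) y).1 * kk d ((homeomorphUnitSphereProd (E d) y).2 : ℝ)
      rw [indicator_of_mem m1, indicator_of_mem m2, Pi.one_apply, one_mul, e3]
    · have m1 : (y : E d) ∉ (fun y : E d => ‖y‖⁻¹ • y) ⁻¹' A := hy
      have m2 : (homeomorphUnitSphereProd (E d) y).1 ∉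
          (Subtype.val ⁻¹' A : Set (sphere (0 : E d) 1)) := by
        rw [mem_preimage, e1]; exact hy
      show ((fun y : E d => ‖y‖⁻¹ • y) ⁻¹' A).indicator
        (fun x => ENNReal.ofReal (Pool.Agent.H988R2.gdens (Fin d) x)) (y : E d) =
        (Subtype.val ⁻¹' A : Set (sphere (0 : E d) 1)).indicator 1
          (homeomorphUnitSphereProd (E d) y).1 * kk d ((homeomorphUnitSphereProd (E d) y).2 : ℝ)
      rw [indicator_of_notMem m1, indicator_of_notMem m2, zero_mul]
  have hGm : Measurable G := by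
    rw [hG]
    refine Measurable.mul ?_ ((meas_kk d).comp (measurable_subtype_coe.comp measurable_snd))
    exact (measurable_one.indicator (measurable_subtype_coe hA)).comp measurable_fst
  rw [h1, h2]
  simp_rw [h3]
  rw [hmp.lintegral_comp hGm, hG,
    lintegral_prod_mul (μ := (volume : Measure (E d)).toSphere)
      (f := (Subtype.val ⁻¹' A : Set (sphere (0 : E d) 1)).indicator 1)
      (g := fun r : Ioi (0 : ℝ) => kk d r.1)
      (measurable_one.indicator (measurable_subtype_coe hA)).aemeasurable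
      ((meas_kk d).comp measurable_subtype_coe).aemeasurable]
  congr 1
  rw [lintegral_indicator_one (measurable_subtype_coe hA)]

theorem t_UNI : S_UNI := by
  intro d hd
  have hnt : Nontrivial (E d) := by
    have : Nonempty (Fin d) := ⟨⟨0, hd⟩⟩
    infer_instance
  have hN : Measurable (fun y : E d => ‖y‖⁻¹ • y) := by fun_prop
  have hP : IsProbabilityMeasure ((stdGaussian (E d)).map (fun y => ‖y‖⁻¹ • y)) :=
    Measure.isProbabilityMeasure_map hN.aemeasurable
  have h0 := polar d hd Set.univ MeasurableSet.univ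
  rw [measure_univ, preimage_univ] at h0
  set K := ∫⁻ r, kk d r.1 ∂(Measure.volumeIoiPow (Module.finrank ℝ (E d) - 1)) with hK
  have hKe : K = ((volume : Measure (E d)).toSphere Set.univ)⁻¹ :=
    ENNReal.eq_inv_of_mul_eq_one_left (by rw [mul_comm]; exact h0.symm)
  ext A hA
  rw [polar d hd A hA, ← hK, hKe, unif, Measure.smul_apply, smul_eq_mul,
    Measure.map_apply measurable_subtype_coe hA, mul_comm]

end Run7.h579.SA
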